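import Pool.Agent.H140.RamseyNice

/-!
# A finite family with an oriented forest that is `k`-nice for only finitely many `k`

Negative answer to Q1: there is a finite family of oriented graphs, one of them an oriented forest,
that is `k`-nice for only finitely many `k`.
-/

set_option autoImplicit false

namespace Pool.Agent.Results.MP_abf784_co.FinitelyOftenNice

open Pool.Agent.H140.RamseyNice

/-- Some finite family of oriented graphs containing an oriented forest is `k`-nice for only finitely
many `k`; for all `k ≥ 38` it has `p_k ≤ 5k+1 < 5k+2 ≤ q_k`. -/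
theorem result :
    ∃ (ι : Type) (_ : Finite ι) (m : ι → ℕ) (F : ∀ i, OGraph (m i)),
      (∃ i, (F i).graph.IsAcyclic) ∧ {k : ℕ | Nice F k}.Finite ∧
      ∀ k : ℕ, 38 ≤ k → (∀ n ∈ pSet F k, n ≤ 5 * k + 1) ∧ ∃ x ∈ qSet F k, 5 * k + 2 ≤ x := by
  refine ⟨Idx, finite_idx, _, fam, fam_forest, ?_, fun k hk =>
    ⟨fun n hn => pSet_le hk hn, exists_qSet (by omega)⟩⟩
  refine (Set.finite_lt_nat 38).subset fun k hk => ?_
  by_contra hlt
  exact fam_not_nice (k := k) (by simpa using hlt) hk

end Pool.Agent.Results.MP_abf784_co.FinitelyOftenNice
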